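import Pool.Agent.H5.RPG.Stmts

/-!
Row BRI of the board `rpg` (MP_e3dc0b): lists against sets.
-/

set_option autoImplicit false

namespace Pool.RPG

open Filter TMLib Pool.PG

section bri

variable {n d : ℕ} {g : Game} {o e : Fin n → Bool} {s : Fin n → Fin d → Fin n}

lemma bri_K (h1 : KITStmt) (hl : g.length = n)
    (hg : ∀ v : Fin n, own g v = o v ∧ evb (pri g v) = e v ∧
      suc g v = List.ofFn fun j => (s v j : ℕ)) (i : Bool) (v : ℕ) :
    (K i g).getD v false = true ↔ ∃ h : v < n, (⟨v, h⟩ : Fin n) ∈ KS i o e s ∅ := by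
  rw [(h1 g i).2 v]
  constructor
  · rintro ⟨S, hv, hS⟩
    have hvn : v < n := by
      rw [← hl]
      exact (hS v hv).1
    refine ⟨hvn, {u | (u : ℕ) ∈ S}, hv, ?_⟩
    intro u hu
    obtain ⟨-, a2, a3, w, hw, hwS⟩ := hS u hu
    obtain ⟨b1, b2, b3⟩ := hg u
    rw [b3, List.mem_ofFn] at hw
    obtain ⟨j, rfl⟩ := hw
    exact ⟨Set.notMem_empty _, b1.symm.trans a2, b2.symm.trans a3, j, hwS⟩
  · rintro ⟨h, S, hv, hS⟩
    refine ⟨{u | ∃ h : u < n, (⟨u, h⟩ : Fin n) ∈ S}, ⟨h, hv⟩, ?_⟩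
    rintro u ⟨hu, huS⟩
    obtain ⟨-, a2, a3, j, hj⟩ := hS _ huS
    obtain ⟨b1, b2, b3⟩ := hg ⟨u, hu⟩
    refine ⟨by rw [hl]; exact hu, b1.trans a2, b2.trans a3, (s ⟨u, hu⟩ j : ℕ), ?_, ?_⟩
    · have : suc g u = List.ofFn fun j => (s ⟨u, hu⟩ j : ℕ) := b3
      rw [this, List.mem_ofFn]
      exact ⟨j, rfl⟩
    · exact ⟨(s ⟨u, hu⟩ j).2, hj⟩

lemma bri_R (h1 : KITStmt) (h2 : RITStmt) (hl : g.length = n)
    (hg : ∀ v : Fin n, own g v = o v ∧ evb (pri g v) = e v ∧
      suc g v = List.ofFn fun j => (s v j : ℕ)) (i : Bool) (v : ℕ) :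
    (R i g).getD v false = true ↔ ∃ h : v < n, (⟨v, h⟩ : Fin n) ∈ RS i o e s ∅ := by
  rw [(h2 g i).2 v]
  constructor
  · rintro ⟨hv, hT⟩
    have hvn : v < n := by
      rw [← hl]
      exact hv
    refine ⟨hvn, ?_⟩
    intro T hK hcl
    have h := hT {u | ∃ h : u < n, (⟨u, h⟩ : Fin n) ∈ T} ?_ ?_
    · exact h.2
    · intro u hu
      obtain ⟨hu1, hu2⟩ := (bri_K h1 hl hg i u).1 hu
      exact ⟨hu1, hK hu2⟩
    · intro u hu hst
      have hun : u < n := by
        rw [← hl]
        exact hu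
      refine ⟨hun, hcl _ (Set.notMem_empty _) ?_⟩
      obtain ⟨b1, b2, b3⟩ := hg ⟨u, hun⟩
      have b1' : own g u = o ⟨u, hun⟩ := b1
      have b3' : suc g u = List.ofFn fun j => (s ⟨u, hun⟩ j : ℕ) := b3
      rw [b1', b3'] at hst
      unfold Pre
      split_ifs at hst ⊢ with hi
      · obtain ⟨w, hw, hw1, hw2⟩ := hst
        rw [List.mem_ofFn] at hw
        obtain ⟨j, rfl⟩ := hw
        exact ⟨j, hw2⟩
      · intro j
        have := hst (s ⟨u, hun⟩ j : ℕ) (by rw [List.mem_ofFn]; exact ⟨j, rfl⟩)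
        exact this.2
  · rintro ⟨h, hv⟩
    refine ⟨by rw [hl]; exact h, ?_⟩
    intro T hK hcl
    refine hv {u | (u : ℕ) ∈ T} ?_ ?_
    · intro u hu
      exact hK u ((bri_K h1 hl hg i u).2 ⟨u.2, hu⟩)
    · intro u _ hp
      refine hcl u (by rw [hl]; exact u.2) ?_
      obtain ⟨b1, b2, b3⟩ := hg u
      rw [b1, b3]
      unfold Pre at hp
      split_ifs at hp ⊢ with hi
      · obtain ⟨j, hj⟩ := hp
        exact ⟨(s u j : ℕ), by rw [List.mem_ofFn]; exact ⟨j, rfl⟩, hj⟩
      · intro w hw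
        rw [List.mem_ofFn] at hw
        obtain ⟨j, rfl⟩ := hw
        exact hp j

lemma bri_U (h1 : KITStmt) (h2 : RITStmt) (hl : g.length = n)
    (hg : ∀ v : Fin n, own g v = o v ∧ evb (pri g v) = e v ∧
      suc g v = List.ofFn fun j => (s v j : ℕ)) (v : ℕ) :
    (U g).getD v false = true ↔ ∃ h : v < n, (⟨v, h⟩ : Fin n) ∈ Lf o e s := by
  by_cases hv : v < n
  · have hv' : v < g.length := by
      rw [hl]
      exact hv
    have hU : (U g).getD v false =
        (!(R true g).getD v false && !(R false g).getD v false) := by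
      unfold U
      rw [List.getD_eq_getElem _ _ (by rw [List.length_map, List.length_range]; exact hv'),
        List.getElem_map, List.getElem_range]
    have ht := bri_R h1 h2 hl hg true v
    have hf := bri_R h1 h2 hl hg false v
    rw [hU, Bool.and_eq_true, Bool.not_eq_true', Bool.not_eq_true', ← Bool.not_eq_true,
      ← Bool.not_eq_true, ht, hf]
    constructor
    · rintro ⟨a, b⟩
      refine ⟨hv, fun i hi => ?_⟩
      cases i
      · exact b ⟨hv, hi⟩
      · exact a ⟨hv, hi⟩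
    · rintro ⟨_, h⟩
      exact ⟨fun ⟨_, h'⟩ => h true h', fun ⟨_, h'⟩ => h false h'⟩
  · constructor
    · intro h
      exfalso
      have hlen : (U g).length ≤ v := by
        unfold U
        rw [List.length_map, List.length_range, hl]
        exact not_lt.1 hv
      rw [List.getD_eq_default _ _ hlen] at h
      exact Bool.false_ne_true h
    · rintro ⟨h, _⟩
      exact absurd h hv

/-- Membership in the list of the successors in `U`. -/
lemma bri_su (h1 : KITStmt) (h2 : RITStmt) (hl : g.length = n)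
    (hg : ∀ v : Fin n, own g v = o v ∧ evb (pri g v) = e v ∧
      suc g v = List.ofFn fun j => (s v j : ℕ)) (v : Fin n) (w : ℕ) :
    w ∈ su g v ↔ ∃ j, s v j ∈ Lf o e s ∧ w = (s v j : ℕ) := by
  unfold su
  rw [List.mem_filter, (hg v).2.2, List.mem_ofFn, bri_U h1 h2 hl hg w]
  constructor
  · rintro ⟨⟨j, rfl⟩, hw, hL⟩
    exact ⟨j, hL, rfl⟩
  · rintro ⟨j, hL, rfl⟩
    exact ⟨⟨j, rfl⟩, (s v j).2, hL⟩

lemma bri_good (h1 : KITStmt) (h2 : RITStmt) (hl : g.length = n)
    (hg : ∀ v : Fin n, own g v = o v ∧ evb (pri g v) = e v ∧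
      suc g v = List.ofFn fun j => (s v j : ℕ)) :
    good g = true ↔ ¬ Fail o e s := by
  unfold good
  rw [List.all_eq_true]
  constructor
  · rintro h ⟨v, hv, j, k, hj, hk, hne⟩
    have h3 := h (v : ℕ) (by rw [List.mem_range, hl]; exact v.2)
    rw [Bool.or_eq_true, Bool.not_eq_true', ← Bool.not_eq_true, bri_U h1 h2 hl hg] at h3
    rcases h3 with h3 | h3
    · exact h3 ⟨v.2, hv⟩
    · rw [List.all_eq_true] at h3
      have a1 := h3 _ ((bri_su h1 h2 hl hg v _).2 ⟨j, hj, rfl⟩)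
      have a2 := h3 _ ((bri_su h1 h2 hl hg v _).2 ⟨k, hk, rfl⟩)
      rw [beq_iff_eq] at a1 a2
      exact hne (Fin.ext (a1.trans a2.symm))
  · intro hF v hv
    rw [List.mem_range, hl] at hv
    rw [Bool.or_eq_true, Bool.not_eq_true', ← Bool.not_eq_true, bri_U h1 h2 hl hg]
    by_cases hL : ∃ h : v < n, (⟨v, h⟩ : Fin n) ∈ Lf o e s
    · right
      obtain ⟨_, hL⟩ := hL
      rw [List.all_eq_true]
      intro w hw
      rw [beq_iff_eq]
      have hsu := bri_su h1 h2 hl hg ⟨v, hv⟩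
      change ∀ w, w ∈ su g v ↔ _ at hsu
      have hhead : (su g v).headD 0 ∈ su g v := by
        cases hs : su g v with
        | nil => rw [hs] at hw; exact absurd hw List.not_mem_nil
        | cons a l => simp
      obtain ⟨j, hj, hj'⟩ := (hsu w).1 hw
      obtain ⟨k, hk, hk'⟩ := (hsu _).1 hhead
      by_contra hne
      refine hF ⟨⟨v, hv⟩, hL, j, k, hj, hk, fun heq => hne ?_⟩
      rw [hj', hk', heq]
    · left
      exact hL

end bri

theorem bri_thm (h1 : KITStmt) (h2 : RITStmt) : BRIStmt := by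
  intro n d g o e s hn hl hg
  have hgood := bri_good h1 h2 hl hg
  unfold lab
  by_cases h : good g = true
  · rw [if_pos h]
    constructor
    · intro h3
      exfalso
      have := congrArg List.length h3
      rw [List.length_map, List.length_range, hl, List.length_nil] at this
      omega
    · intro h3
      exact absurd h3 (hgood.1 h)
  · rw [if_neg h]
    constructor
    · intro _
      by_contra h3
      exact h (hgood.2 h3)
    · intro _
      rfl

end Pool.RPG
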